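import Mathlib
import Pool.Agent.T9h97.CFL.Apply

/-!
# Context-free languages against nondeterministic branching programs with antitone oracles

The theorem `MonotoneBranchingPrograms` says that a certain context-free language `L` over the
binary alphabet has no monotone nondeterministic branching programs of polynomial size (not even
of size `n ^ (c log n)`). Here the programs may in addition use `t` arbitrary antitone functions
of the whole word, of unbounded complexity, in the conditions on their edges, and the same bound
holds as long as `(r + 1) (t + 1) ≤ n ^ (1 - δ)`, where `r` is the number of letters read by an edge.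

Proof. One word of `L` can hold `M` independent instances of the tree problem and be in `L` if and
only if one of the instances is positive: a marker at the bottom of the stack says whether an
instance has already been chosen, and all blocks have additional options which only work if a
marker is on the top. Replace the instances, which are empty at the beginning, one after another
by negative instances in such a way that the vector of the values of the oracles changes at each
step, if possible. As the oracles are antitone, there are at most `t` changes. So if `t < M` there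
is an instance for which no negative test changes the oracles, and the program with the frozen
oracles is a monotone program which separates the positive from the negative tests for it.
-/

set_option autoImplicit false

namespace Pool.Agent.Results.MP_5afa16_lc.AntitoneOracles

open Pool.Agent.T9h47.MN Pool.Agent.T9h97.CFL

/-- The condition of every edge of the program is a monotone function of at most `r` letters of the
word and of the values of the functions `φ i`. -/
def OracleGuards {n : ℕ} (P : Program Bool n) {t : ℕ} (φ : Fin t → (Fin n → Bool) → Bool)
    (r : ℕ) : Prop :=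
  ∀ e, ∃ (J : Finset (Fin n)) (G : (Fin n → Bool) → (Fin t → Bool) → Prop), J.card ≤ r ∧
    (∀ x y v, (∀ j ∈ J, x j = y j) → (G x v ↔ G y v)) ∧
    (∀ x y v w, x ≤ y → v ≤ w → G x v → G y w) ∧
    ∀ x, P.guard e x ↔ G x (fun i => φ i x)

theorem main (δ : ℝ) (hδ : 0 < δ) : ∃ c : ℝ, 0 < c ∧ ∃ n₀ : ℕ, ∀ n ≥ n₀, ∀ (t r : ℕ)
    (φ : Fin t → (Fin n → Bool) → Bool) (P : Program Bool n), (∀ i, Antitone (φ i)) →
    OracleGuards P φ r → ((r : ℝ) + 1) * ((t : ℝ) + 1) ≤ (n : ℝ) ^ (1 - δ) → P.Recognizes LB →
    (n : ℝ) ^ (c * Real.log n) ≤ P.size := by
  classical
  obtain ⟨c, hc, n₀, h⟩ := params_bin δ hδ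
  refine ⟨c, hc, n₀ + 1, ?_⟩
  intro n hn t r φ P hφ hG hrt hrec
  obtain ⟨a, C, i, h1, h2, h3, h4, h5⟩ := h n (by omega) t r hrt
  by_contra hcon
  rw [not_le] at hcon
  choose J G hJ hG1 hG2 hG3 using hG
  have hn1 : (1 : ℝ) ≤ n := by exact_mod_cast (by omega : 1 ≤ n)
  have hs : 16 * P.size < 2 ^ (a * a) := by
    have h6 : 16 * (P.size : ℝ) < 2 ^ (a * a) := by
      refine lt_of_le_of_lt ?_ h5
      have h7 : 0 ≤ (n : ℝ) ^ (c * Real.log n) := by positivity
      nlinarith
    exact_mod_cast h6
  obtain ⟨x, hx⟩ := core_bool h1 h2 h3 rfl (f := fun x => P.Accepts x) (fun x => hrec x)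
    (sep_oracle φ hφ P G (fun e x => hG3 e x) (fun e x y v w => hG2 e x y v w)
      (fun e => ⟨J e, hJ e, fun x y v => hG1 e x y v⟩) _) h4 hs
  have h8 := (Finset.card_le_univ (Finset.univ.filter fun i : Fin t => φ i x = false))
  simp only [Fintype.card_fin] at h8
  omega

/-- There is a context-free language `L` over `{0, 1}`, closed under changing zeros to ones, such
that for every `δ > 0` there are `c > 0` and `n₀` with the following property. Let `n ≥ n₀`, let `P`
be a nondeterministic branching program whose edges carry conditions which are monotone functions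
of at most `r` letters and of the values of `t` antitone functions of the word, where
`(r + 1) (t + 1) ≤ n ^ (1 - δ)`. If `P` recognizes the words of length `n` of `L`, then it has at least
`n ^ (c log n)` edges. -/
theorem result : ∃ L : Language Bool, L.IsContextFree ∧
    (∀ u v : List Bool, List.Forall₂ (· ≤ ·) u v → u ∈ L → v ∈ L) ∧
    ∀ δ : ℝ, 0 < δ → ∃ c : ℝ, 0 < c ∧ ∃ n₀ : ℕ, ∀ n ≥ n₀, ∀ (t r : ℕ)
      (φ : Fin t → (Fin n → Bool) → Bool) (P : Program Bool n), (∀ i, Antitone (φ i)) →
      OracleGuards P φ r → ((r : ℝ) + 1) * ((t : ℝ) + 1) ≤ (n : ℝ) ^ (1 - δ) → P.Recognizes L →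
      (n : ℝ) ^ (c * Real.log n) ≤ P.size :=
  ⟨LB, LB_cf, fun _ _ h hu => LB_up h hu, main⟩

end Pool.Agent.Results.MP_5afa16_lc.AntitoneOracles
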