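import Mathlib
import Pool.Agent.T9h97.CFL.Apply

/-!
# Context-free languages against nondeterministic branching programs with monotone advice

The context-free language `L` over the binary alphabet of the theorem `MonotoneBranchingPrograms`
has no monotone nondeterministic branching programs of size `n ^ (c log n)`. Here a number `R` of
such programs `h 0, ..., h (R - 1)` computes an advice `v`, and then another monotone program `D v`,
which depends in an arbitrary way on the advice, decides membership. If `R ≤ n ^ (1 - δ)` (and each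
edge reads one letter, say), then this does not help: one of the programs still has at least
`n ^ (c log n)` edges. In particular no Boolean combination of `n ^ (1 - δ)` monotone programs of
smaller size recognizes `L`.

Proof. As for antitone oracles, with the union of the programs `D v` and `h i` for the `i` with
`v i = 0`, where `v` is the advice for the word in which the instance in question is empty.
-/

set_option autoImplicit false

namespace Pool.Agent.Results.MP_5afa16_lc.MonotoneAdvice

open Pool.Agent.T9h47.MN Pool.Agent.T9h97.CFL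

open Classical in
theorem main (δ : ℝ) (hδ : 0 < δ) : ∃ c : ℝ, 0 < c ∧ ∃ n₀ : ℕ, ∀ n ≥ n₀, ∀ (R r s : ℕ)
    (h : Fin R → Program Bool n) (D : (Fin R → Bool) → Program Bool n),
    (∀ i, (h i).Monotone ∧ (h i).Reads r ∧ (h i).size ≤ s) →
    (∀ v, (D v).Monotone ∧ (D v).Reads r ∧ (D v).size ≤ s) →
    ((r : ℝ) + 1) * ((R : ℝ) + 1) ≤ (n : ℝ) ^ (1 - δ) →
    (∀ x : Fin n → Bool, (D fun i => decide ((h i).Accepts x)).Accepts x ↔ List.ofFn x ∈ LB) →
    (n : ℝ) ^ (c * Real.log n) ≤ s := by
  obtain ⟨c, hc, n₀, hp⟩ := params_bin δ hδ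
  refine ⟨c, hc, n₀ + 1, ?_⟩
  intro n hn R r s h D hh hD hrt hrec
  obtain ⟨a, C, i, h1, h2, h3, h4, h5⟩ := hp n (by omega) R r hrt
  by_contra hcon
  rw [not_le] at hcon
  have hn1 : (1 : ℝ) ≤ n := by exact_mod_cast (by omega : 1 ≤ n)
  have hrd : ∀ P : Program Bool n, P.Reads r → ReadsN P r := by
    intro P hP e
    obtain ⟨J, hJ1, hJ2⟩ := hP e
    exact ⟨J, by exact_mod_cast hJ1, hJ2⟩
  have hδ1 : 0 < n := by omega
  have hRn : (R : ℝ) + 1 ≤ n := by
    have h6 : (n : ℝ) ^ (1 - δ) ≤ (n : ℝ) ^ (1 : ℝ) :=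
      Real.rpow_le_rpow_of_exponent_le hn1 (by linarith)
    rw [Real.rpow_one] at h6
    have h7 : (0 : ℝ) ≤ r := Nat.cast_nonneg r
    have h8 : (0 : ℝ) ≤ R := Nat.cast_nonneg R
    nlinarith
  have hs : 16 * ((R + 1) * (s + 2)) < 2 ^ (a * a) := by
    have h6 : 16 * (((R : ℝ) + 1) * ((s : ℝ) + 2)) < 2 ^ (a * a) := by
      refine lt_of_le_of_lt ?_ h5
      have h7 : ((R : ℝ) + 1) * ((s : ℝ) + 2) ≤ n * ((n : ℝ) ^ (c * Real.log n) + 2) :=
        mul_le_mul hRn (by linarith) (by positivity) (by linarith)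
      linarith
    exact_mod_cast h6
  obtain ⟨x, hx⟩ := core_bool h1 h2 h3 rfl
    (f := fun x => (D fun i => decide ((h i).Accepts x)).Accepts x) (fun x => hrec x)
    (sep_advice h D (fun i => ⟨(hh i).1, hrd _ (hh i).2.1, (hh i).2.2⟩)
      (fun v => ⟨(hD v).1, hrd _ (hD v).2.1, (hD v).2.2⟩) _) h4 hs
  have h8 := (Finset.card_le_univ (Finset.univ.filter fun i : Fin R => (h i).Accepts x))
  simp only [Fintype.card_fin] at h8
  omega

open Classical in
/-- There is a context-free language `L` over `{0, 1}`, closed under changing zeros to ones, such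
that for every `δ > 0` there are `c > 0` and `n₀` with the following property. Let `n ≥ n₀`, let
`h 0, ..., h (R - 1)` and `D v`, for all `v` in `{0, 1} ^ R`, be monotone nondeterministic branching
programs with at most `s` edges, the conditions of which depend on at most `r` letters each, where
`(r + 1) (R + 1) ≤ n ^ (1 - δ)`. If a word `x` of length `n` is in `L` if and only if it is accepted by
`D v`, where `v` is the vector of the answers of the programs `h i` for `x`, then
`s ≥ n ^ (c log n)`. -/
theorem result : ∃ L : Language Bool, L.IsContextFree ∧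
    (∀ u v : List Bool, List.Forall₂ (· ≤ ·) u v → u ∈ L → v ∈ L) ∧
    ∀ δ : ℝ, 0 < δ → ∃ c : ℝ, 0 < c ∧ ∃ n₀ : ℕ, ∀ n ≥ n₀, ∀ (R r s : ℕ)
      (h : Fin R → Program Bool n) (D : (Fin R → Bool) → Program Bool n),
      (∀ i, (h i).Monotone ∧ (h i).Reads r ∧ (h i).size ≤ s) →
      (∀ v, (D v).Monotone ∧ (D v).Reads r ∧ (D v).size ≤ s) →
      ((r : ℝ) + 1) * ((R : ℝ) + 1) ≤ (n : ℝ) ^ (1 - δ) →
      (∀ x : Fin n → Bool, (D fun i => decide ((h i).Accepts x)).Accepts x ↔ List.ofFn x ∈ L) →
      (n : ℝ) ^ (c * Real.log n) ≤ s :=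
  ⟨LB, LB_cf, fun _ _ h hu => LB_up h hu, main⟩

end Pool.Agent.Results.MP_5afa16_lc.MonotoneAdvice
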