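import Mathlib
import Pool.Agent.T9h47.MN.BinMain

/-!
# Context-free languages against monotone nondeterministic branching programs

There is a context-free language `L` over the binary alphabet which is closed under changing zeros
to ones such that for all `δ > 0` there is `c > 0` with the following property. For all large `n`,
every monotone nondeterministic branching program which recognizes the words of length `n` of `L`
and whose edges depend on at most `n ^ (1 - δ)` letters each has at least `n ^ (c log n)` edges.

The bound is optimal up to the constant `c` by the simulation of Lewis, Stearns and Hartmanis, and
the programs of polynomial size are the nonuniform form of `NL`. So this is the monotone form of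
the statement that some context-free language is not in `NL`.

Proof. A word of `L` consists of blocks, one for each node `v` of the complete binary tree of
height `h = 64 a` in depth-first order; the block of an inner node offers for all triples
`(x, y, z)` of labels an option of replacing the label `z` on the top of the stack by `x, y`, which
is available if the letter in front of the option is the larger one. Positive tests are labelings
of the tree, negative tests are colourings of the pairs (node, label) by two colours, where the root
is true and the leaves are false. The reachability in the program is approximated by sets of
configurations: partial labelings with at most `7 a` nodes together with a set of inner nodes whose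
boundary is in the domain of the labeling. Plucking is a sunflower argument on labelings, and
configurations which have seen exactly a third of the tree do not exist, because every such set of
nodes has a boundary of size `Ω(h)`.
-/

set_option autoImplicit false

namespace Pool.Agent.Results.MP_5afa16_lc.MonotoneBranchingPrograms

open Pool.Agent.T9h47.MN

theorem result : ∃ L : Language Bool, L.IsContextFree ∧
    (∀ u v : List Bool, List.Forall₂ (· ≤ ·) u v → u ∈ L → v ∈ L) ∧
    ∀ δ : ℝ, 0 < δ → ∃ c : ℝ, 0 < c ∧ ∃ n₀ : ℕ, ∀ n ≥ n₀, ∀ P : Program Bool n,
      P.Monotone → P.Reads ((n : ℝ) ^ (1 - δ)) → P.Recognizes L →
        (n : ℝ) ^ (c * Real.log n) ≤ P.size :=
  ⟨LB, LB_cf, fun _ _ h hu => LB_up h hu, main_bin⟩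

end Pool.Agent.Results.MP_5afa16_lc.MonotoneBranchingPrograms
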