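import Mathlib
import Pool.Agent.T9h97.CFL.WitCore

/-!
# Context-free languages against unions and intersections of many branching programs

The context-free language `L` over the binary alphabet of the theorem `MonotoneBranchingPrograms`
has no monotone nondeterministic branching programs of size `n ^ (c log n)`. Here we consider the
union, or the intersection, of an exponential number of such programs `D u`: a witness `u` of
`log |U|` bits is guessed (existentially, or universally) in advance and may be used by the program
as often as it likes. If `log |U| ≤ n ^ (1 - δ)` (and each edge reads one letter, say), then this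
does not help: one of the programs still has at least `n ^ (c log n)` edges. With `n` bits there are
such unions and intersections of programs with `n` edges.

Proof. For unions we use words which encode `M > log |U|` instances of a tree evaluation problem and
are in `L` if and only if all instances are positive, for intersections words which are in `L` if
and only if some instance is positive. In the first case we start with instances which contain all
variables and replace them, one after another, by positive tests. If the number of the programs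
which accept the word does not drop by a factor of two, whatever the positive test is, then a few
programs are enough to accept all positive tests of the instance, and their union is a small
monotone program which separates the positive from the negative tests. This is impossible. The
second case is dual to the first one.
-/

set_option autoImplicit false

namespace Pool.Agent.Results.MP_5afa16_lc.WitnessBits

open Pool.Agent.T9h47.MN Pool.Agent.T9h97.CFL

theorem main (δ : ℝ) (hδ : 0 < δ) : ∃ c : ℝ, 0 < c ∧ ∃ n₀ : ℕ, ∀ n ≥ n₀,
    ∀ (U : Type) [Fintype U] (r s : ℕ) (D : U → Program Bool n),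
    (∀ u, (D u).Monotone ∧ (D u).Reads r ∧ (D u).size ≤ s) →
    ((r : ℝ) + 1) * (Real.logb 2 (Fintype.card U) + 1) ≤ (n : ℝ) ^ (1 - δ) →
    ((∀ x : Fin n → Bool, (∃ u, (D u).Accepts x) ↔ List.ofFn x ∈ LB) ∨
      (∀ x : Fin n → Bool, (∀ u, (D u).Accepts x) ↔ List.ofFn x ∈ LB)) →
    (n : ℝ) ^ (c * Real.log n) ≤ s := by
  obtain ⟨c, hc, n₀, hp⟩ := params_bin δ hδ
  refine ⟨c, hc, n₀ + 1, ?_⟩
  intro n hn U _ r s D hD hrt hrec
  have hlog : ((Nat.log 2 (Fintype.card U) : ℕ) : ℝ) ≤ Real.logb 2 (Fintype.card U) := by
    rcases Nat.eq_zero_or_pos (Fintype.card U) with h0 | h0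
    · rw [h0]
      simp
    · rw [Real.le_logb_iff_rpow_le (by norm_num) (by exact_mod_cast h0), Real.rpow_natCast]
      exact_mod_cast Nat.pow_log_le_self 2 h0.ne'
  obtain ⟨a, C, i, h1, h2, h3, h4, h5⟩ := hp n (by omega) (Nat.log 2 (Fintype.card U)) r (by
    refine le_trans (mul_le_mul_of_nonneg_left (by linarith) ?_) hrt
    have : (0 : ℝ) ≤ r := Nat.cast_nonneg r
    linarith)
  by_contra hcon
  rw [not_le] at hcon
  have hrd : ∀ P : Program Bool n, P.Reads r → ReadsN P r := by
    intro P hP e
    obtain ⟨J, hJ1, hJ2⟩ := hP e
    exact ⟨J, by exact_mod_cast hJ1, hJ2⟩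
  have hnum := num_le a C (Nat.log 2 (Fintype.card U) + 1) i (by omega)
  rw [h3] at hnum
  have hs : 16 * ((2 ^ (64 * a + 1) * 2 ^ (64 * a * C) + 1) * (s + 2)) < 2 ^ (a * a) := by
    have h6 : (16 * (n * (s + 2)) : ℝ) < 2 ^ (a * a) := by
      refine lt_of_le_of_lt ?_ h5
      have h7 : (n : ℝ) * ((s : ℝ) + 2) ≤ n * ((n : ℝ) ^ (c * Real.log n) + 2) :=
        mul_le_mul_of_nonneg_left (by linarith) (Nat.cast_nonneg n)
      linarith
    have h8 : 16 * (n * (s + 2)) < 2 ^ (a * a) := by exact_mod_cast h6
    refine lt_of_le_of_lt (Nat.mul_le_mul_left _ (Nat.mul_le_mul_right _ ?_)) h8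
    exact hnum.trans (Nat.div_le_self _ _)
  have hD' : ∀ u, (D u).Monotone ∧ ReadsN (D u) r ∧ (D u).size ≤ s := fun u =>
    ⟨(hD u).1, hrd _ (hD u).2.1, (hD u).2.2⟩
  rcases hrec with hrec | hrec
  · have := union_core h1 h2 h3 D hD' hrec h4 hs
    omega
  · have := inter_core h1 h2 h3 D hD' hrec h4 hs
    omega

/-- There is a context-free language `L` over `{0, 1}`, closed under changing zeros to ones, such
that for every `δ > 0` there are `c > 0` and `n₀` with the following property. Let `n ≥ n₀` and let
`D u`, for `u` in a finite set `U`, be monotone nondeterministic branching programs with at most `s`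
edges, the conditions of which depend on at most `r` letters each, where
`(r + 1) (log |U| + 1) ≤ n ^ (1 - δ)` (binary logarithm). If the words of length `n` in `L` are the
words accepted by at least one of the programs, or the words accepted by all of the programs, then
`s ≥ n ^ (c log n)`. -/
theorem result : ∃ L : Language Bool, L.IsContextFree ∧
    (∀ u v : List Bool, List.Forall₂ (· ≤ ·) u v → u ∈ L → v ∈ L) ∧
    ∀ δ : ℝ, 0 < δ → ∃ c : ℝ, 0 < c ∧ ∃ n₀ : ℕ, ∀ n ≥ n₀,
      ∀ (U : Type) [Fintype U] (r s : ℕ) (D : U → Program Bool n),
      (∀ u, (D u).Monotone ∧ (D u).Reads r ∧ (D u).size ≤ s) →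
      ((r : ℝ) + 1) * (Real.logb 2 (Fintype.card U) + 1) ≤ (n : ℝ) ^ (1 - δ) →
      ((∀ x : Fin n → Bool, (∃ u, (D u).Accepts x) ↔ List.ofFn x ∈ L) ∨
        (∀ x : Fin n → Bool, (∀ u, (D u).Accepts x) ↔ List.ofFn x ∈ L)) →
      (n : ℝ) ^ (c * Real.log n) ≤ s :=
  ⟨LB, LB_cf, fun _ _ h hu => LB_up h hu, main⟩

end Pool.Agent.Results.MP_5afa16_lc.WitnessBits
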